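import Pool.Agent.N89.HB.Stm

/-!
# The geometric Galois group and a field of definition (part CEX of the project HB of helper89)
-/

set_option autoImplicit false
set_option linter.all false

namespace Pool.Agent.N687.HB.CEX

open Polynomial NumberField Pool.Agent.N89.HX Pool.Agent.N89.HG Pool.Agent.N89.HB

/-! ### Numberings of the roots -/

theorem exists_W {M : Type} [Field M] [IsAlgClosed M] {e : ℕ} (p : Polynomial M) (hm : p.Monic)
    (hd : p.natDegree = e) : ∃ W : Fin e → M, p = ∏ i, (X - C (W i)) := by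
  have h1 := (IsAlgClosed.splits p).eq_prod_roots_of_monic hm
  have h2 : p.roots.card = e := by
    rw [← hd]
    exact (IsAlgClosed.splits p).natDegree_eq_card_roots.symm
  obtain ⟨l, hl⟩ : ∃ l, l = p.roots.toList := ⟨_, rfl⟩
  have h3 : (l : Multiset M) = p.roots := by rw [hl, Multiset.coe_toList]
  have h4 : l.length = e := by rw [← h2, ← h3, Multiset.coe_card]
  subst h4
  refine ⟨fun i => l[i.1], ?_⟩
  rw [Fin.prod_univ_fun_getElem l (fun a => X - C a)]
  conv_lhs => rw [h1, ← h3]
  rw [Multiset.map_coe, Multiset.prod_coe]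

theorem pol_degree {A : Type} [CommRing A] {e : ℕ} (f : Fin (e + 1) → A) :
    (pol f).natDegree ≤ e := by
  unfold pol
  apply natDegree_sum_le_of_forall_le
  intro i _
  exact (natDegree_C_mul_X_pow_le _ _).trans (by have := i.isLt; omega)

theorem pol_coeff {A : Type} [CommRing A] {e : ℕ} (f : Fin (e + 1) → A) :
    (pol f).coeff e = f (Fin.last e) := by
  unfold pol
  rw [finsetSum_coeff, Finset.sum_eq_single (Fin.last e)]
  · rw [coeff_C_mul, coeff_X_pow, if_pos (by simp), mul_one]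
  · intro j _ hj
    rw [coeff_C_mul, coeff_X_pow, if_neg, mul_zero]
    intro h
    exact hj (Fin.ext (by simpa using h.symm))
  · intro h
    exact absurd (Finset.mem_univ _) h

theorem exists_roots {K M : Type} [Field K] [Field M] [IsAlgClosed M] (ψ : K →+* M) {e : ℕ}
    (f : Fin (e + 1) → K) (hf : f (Fin.last e) ≠ 0) (hs : (pol f).Separable) :
    ∃ x : Fin e → M, Roots ψ f x := by
  have hψ : ψ (f (Fin.last e)) ≠ 0 := by
    rw [Ne, map_eq_zero]; exact hf
  have hd : (pol f).natDegree = e := by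
    apply le_antisymm (pol_degree f)
    apply le_natDegree_of_ne_zero
    rw [pol_coeff]; exact hf
  have hd' : ((pol f).map ψ).natDegree = e := by rw [natDegree_map, hd]
  have hl : ((pol f).map ψ).leadingCoeff = ψ (f (Fin.last e)) := by
    rw [leadingCoeff_map, leadingCoeff, hd, pol_coeff]
  have hm : ((pol f).map ψ * C (ψ (f (Fin.last e)))⁻¹).Monic := by
    have := monic_mul_leadingCoeff_inv (p := (pol f).map ψ) (by
      intro h0
      rw [h0] at hl
      simp at hl
      exact hψ hl.symm)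
    rwa [hl] at this
  have hd2 : ((pol f).map ψ * C (ψ (f (Fin.last e)))⁻¹).natDegree = e := by
    rw [natDegree_mul_C (inv_ne_zero hψ), hd']
  obtain ⟨W, hW⟩ := exists_W _ hm hd2
  have hprod : (pol f).map ψ = C (ψ (f (Fin.last e))) * ∏ i, (X - C (W i)) := by
    rw [← hW, mul_comm, mul_assoc, ← C_mul, inv_mul_cancel₀ hψ, C_1, mul_one]
  refine ⟨W, hf, ?_, hprod⟩
  rw [← separable_prod_X_sub_C_iff]
  have h1 : ((pol f).map ψ).Separable := hs.map
  rw [hprod] at h1
  exact h1.of_mul_right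

theorem root_iff {K M : Type} [Field K] [Field M] {ψ : K →+* M} {e : ℕ}
    {f : Fin (e + 1) → K} {x : Fin e → M} (hx : Roots ψ f x) (y : M) :
    ((pol f).map ψ).eval y = 0 ↔ ∃ i, y = x i := by
  obtain ⟨h1, -, h3⟩ := hx
  have hψ : ψ (f (Fin.last e)) ≠ 0 := by
    rw [Ne, map_eq_zero]; exact h1
  rw [h3, eval_mul, eval_C, mul_eq_zero, or_iff_right hψ, eval_prod, Finset.prod_eq_zero_iff]
  simp [sub_eq_zero]

/-- two numberings of the roots differ by a permutation -/
theorem exists_perm {K M : Type} [Field K] [Field M] {ψ : K →+* M} {e : ℕ}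
    {f : Fin (e + 1) → K} {x : Fin e → M} (hx : Roots ψ f x) (y : Fin e → M)
    (hy : Function.Injective y) (h : ∀ i, ((pol f).map ψ).eval (y i) = 0) :
    ∃ σ : Equiv.Perm (Fin e), ∀ i, y i = x (σ i) := by
  choose s hs using fun i => (root_iff hx (y i)).mp (h i)
  have hinj : Function.Injective s := by
    intro i i' hii
    apply hy
    rw [hs i, hs i', hii]
  refine ⟨Equiv.ofBijective s (Finite.injective_iff_bijective.mp hinj), fun i => ?_⟩
  exact hs i

theorem perm_of_aut {E Om : Type} [Field E] [Field Om] [Algebra E Om] {e : ℕ}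
    {f : Fin (e + 1) → E} {x : Fin e → Om} (hx : Roots (algebraMap E Om) f x)
    (τ : Om ≃ₐ[E] Om) : ∃ σ : Equiv.Perm (Fin e), ∀ i, τ (x i) = x (σ i) := by
  apply exists_perm hx (fun i => τ (x i)) (τ.injective.comp hx.2.1)
  intro i
  have h1 : ((pol f).map (algebraMap E Om)).eval (x i) = 0 := (root_iff hx _).mpr ⟨i, rfl⟩
  have h2 : ((pol f).map (algebraMap E Om)).eval (τ (x i)) =
      τ (((pol f).map (algebraMap E Om)).eval (x i)) := by
    rw [eval_map_algebraMap, eval_map_algebraMap]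
    exact aeval_algHom_apply (τ : Om →ₐ[E] Om) (x i) (pol f)
  show ((pol f).map (algebraMap E Om)).eval (τ (x i)) = 0
  rw [h2, h1, map_zero]

/-- the group of the permutations of the roots which come from automorphisms -/
def grp {E Om : Type} [Field E] [Field Om] [Algebra E Om] {e : ℕ} (x : Fin e → Om) :
    Subgroup (Equiv.Perm (Fin e)) where
  carrier := {σ | ∃ τ : Om ≃ₐ[E] Om, ∀ i, τ (x i) = x (σ i)}
  mul_mem' := by
    rintro a b ⟨τ, hτ⟩ ⟨τ', hτ'⟩
    refine ⟨τ * τ', fun i => ?_⟩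
    rw [AlgEquiv.mul_apply, hτ', hτ, Equiv.Perm.mul_apply]
  one_mem' := ⟨1, fun i => rfl⟩
  inv_mem' := by
    rintro a ⟨τ, hτ⟩
    refine ⟨τ⁻¹, fun i => ?_⟩
    have h1 : τ (x (a⁻¹ i)) = x i := by
      have := hτ (a⁻¹ i)
      simpa using this
    rw [← h1, AlgEquiv.aut_inv]
    exact τ.symm_apply_apply _

/-! ### Different linear combinations -/

theorem exists_omega {M : Type} [Field M] [CharZero M] {e : ℕ} (x : Fin e → M)
    (hx : Function.Injective x) : ∃ ω : Fin e → ℕ, ∀ σ π : Equiv.Perm (Fin e),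
      ∑ i, (ω i : M) * x (σ i) = ∑ i, (ω i : M) * x (π i) → σ = π := by
  classical
  let l : Equiv.Perm (Fin e) × Equiv.Perm (Fin e) → MvPolynomial (Fin e) M := fun q =>
    ∑ i, MvPolynomial.C (x (q.1 i) - x (q.2 i)) * MvPolynomial.X i
  let D : MvPolynomial (Fin e) M :=
    ∏ q ∈ Finset.univ.filter (fun q : Equiv.Perm (Fin e) × Equiv.Perm (Fin e) => q.1 ≠ q.2), l q
  have hl : ∀ q : Equiv.Perm (Fin e) × Equiv.Perm (Fin e), q.1 ≠ q.2 → l q ≠ 0 := by
    intro q hq h0
    apply hq
    ext1 i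
    have h1 := congrArg (MvPolynomial.eval (Pi.single i (1 : M))) h0
    simp only [l, map_sum, map_mul, MvPolynomial.eval_C, MvPolynomial.eval_X, map_zero] at h1
    rw [Finset.sum_eq_single i] at h1
    · rw [Pi.single_eq_same, mul_one, sub_eq_zero] at h1
      exact hx h1
    · intro j _ hj
      rw [Pi.single_eq_of_ne hj, mul_zero]
    · intro h
      exact absurd (Finset.mem_univ _) h
  have hD : D ≠ 0 := by
    apply Finset.prod_ne_zero_iff.mpr
    intro q hq
    exact hl q (Finset.mem_filter.mp hq).2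
  have hex : ∃ w ∈ Set.pi Set.univ (fun _ : Fin e => Set.range (Nat.cast : ℕ → M)),
      MvPolynomial.eval w D ≠ 0 := by
    by_contra hc
    push Not at hc
    apply hD
    apply MvPolynomial.funext_set (fun _ : Fin e => Set.range (Nat.cast : ℕ → M))
      (fun _ => Set.infinite_range_of_injective Nat.cast_injective)
    intro w hw
    rw [map_zero]
    exact hc w hw
  obtain ⟨w, hw, hne⟩ := hex
  choose ω hω using fun i => hw i (Set.mem_univ i)
  refine ⟨ω, fun σ π h => ?_⟩
  by_contra hσ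
  apply hne
  have : MvPolynomial.eval w D = ∏ q ∈ Finset.univ.filter
      (fun q : Equiv.Perm (Fin e) × Equiv.Perm (Fin e) => q.1 ≠ q.2), MvPolynomial.eval w (l q) := by
    simp only [D, map_prod]
  rw [this]
  apply Finset.prod_eq_zero (i := (σ, π)) (Finset.mem_filter.mpr ⟨Finset.mem_univ _, hσ⟩)
  simp only [l, map_sum, map_mul, MvPolynomial.eval_C, MvPolynomial.eval_X]
  have h2 : ∑ i, (x (σ i) - x (π i)) * w i =
      ∑ i, (ω i : M) * x (σ i) - ∑ i, (ω i : M) * x (π i) := by
    rw [← Finset.sum_sub_distrib]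
    apply Finset.sum_congr rfl
    intro i _
    rw [← hω i]
    ring
  rw [h2, h, sub_self]

/-! ### The group -/

theorem core {E Om : Type} [Field E] [CharZero E] [Field Om] [Algebra E Om] [IsAlgClosure E Om]
    {e : ℕ} (f : Fin (e + 1) → E) (hf : f (Fin.last e) ≠ 0) (hirr : Irreducible (pol f)) :
    ∃ (x : Fin e → Om) (P : Polynomial E) (ω : Fin e → ℕ), Roots (algebraMap E Om) f x ∧
      (∀ i i', ∃ σ ∈ grp (E := E) x, σ i = i') ∧
      aeval (∑ i, (ω i : Om) * x i) P = 0 ∧
      ∀ π : Equiv.Perm (Fin e), aeval (∑ i, (ω i : Om) * x (π i)) P = 0 → π ∈ grp (E := E) x := by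
  classical
  haveI : IsAlgClosed Om := IsAlgClosure.isAlgClosed E
  haveI : Algebra.IsAlgebraic E Om := IsAlgClosure.isAlgebraic
  haveI : CharZero Om := charZero_of_injective_algebraMap (algebraMap E Om).injective
  haveI : IsGalois E Om := IsAlgClosure.isGalois E Om
  obtain ⟨x, hx⟩ := exists_roots (algebraMap E Om) f hf hirr.separable
  obtain ⟨ω, hω⟩ := exists_omega x hx.2.1
  let s : Equiv.Perm (Fin e) → Om := fun σ => ∑ i, (ω i : Om) * x (σ i)
  let Q : Polynomial Om := ∏ σ ∈ Finset.univ.filter (fun σ => σ ∈ grp (E := E) x), (X - C (s σ))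
  have hQ : Q ∈ lifts (algebraMap E Om) := by
    rw [lifts_iff_coeff_lifts]
    intro n
    rw [InfiniteGalois.mem_range_algebraMap_iff_fixed]
    intro τ
    obtain ⟨π, hπ⟩ := perm_of_aut hx τ
    have hπG : π ∈ grp (E := E) x := ⟨τ, hπ⟩
    have h1 : Q.map (τ : Om →+* Om) = Q := by
      simp only [Q]
      rw [Polynomial.map_prod]
      apply Finset.prod_bij (fun σ _ => π * σ)
      · intro σ hσ
        rw [Finset.mem_filter] at hσ ⊢
        exact ⟨Finset.mem_univ _, mul_mem hπG hσ.2⟩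
      · intro a _ b _ hab
        exact mul_left_cancel hab
      · intro b hb
        rw [Finset.mem_filter] at hb
        refine ⟨π⁻¹ * b, ?_, by simp⟩
        rw [Finset.mem_filter]
        exact ⟨Finset.mem_univ _, mul_mem (inv_mem hπG) hb.2⟩
      · intro σ _
        have h2 : τ (s σ) = s (π * σ) := by
          simp only [s, map_sum, map_mul, map_natCast, hπ, Equiv.Perm.mul_apply]
        rw [Polynomial.map_sub, map_X, map_C]
        congr 2
    have h3 := congrArg (fun q : Polynomial Om => q.coeff n) h1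
    simpa [coeff_map] using h3
  obtain ⟨P, hP⟩ := (mem_lifts _).mp hQ
  refine ⟨x, P, ω, hx, ?_, ?_, ?_⟩
  · intro i i'
    have hmin : ∀ i, minpoly E (x i) = pol f * C (pol f).leadingCoeff⁻¹ := by
      intro i
      have h1 : aeval (x i) (pol f) = 0 := by
        rw [← eval_map_algebraMap]
        exact (root_iff hx _).mpr ⟨i, rfl⟩
      exact (minpoly.eq_of_irreducible hirr h1).symm
    obtain ⟨τ, hτ⟩ := minpoly.exists_algEquiv_of_root' (K := E) (L := Om) (x := x i') (y := x i)
      (Algebra.IsAlgebraic.isAlgebraic _) (by rw [hmin i, ← hmin i']; exact minpoly.aeval _ _)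
    obtain ⟨σ, hσ⟩ := perm_of_aut hx τ
    refine ⟨σ, ⟨τ, hσ⟩, ?_⟩
    apply hx.2.1
    rw [← hσ, hτ]
  · rw [← eval_map_algebraMap, hP]
    simp only [Q]
    rw [eval_prod]
    apply Finset.prod_eq_zero (i := (1 : Equiv.Perm (Fin e)))
    · rw [Finset.mem_filter]
      exact ⟨Finset.mem_univ _, one_mem _⟩
    · rw [eval_sub, eval_X, eval_C]
      exact sub_self _
  · intro π h
    rw [← eval_map_algebraMap, hP] at h
    simp only [Q] at h
    rw [eval_prod, Finset.prod_eq_zero_iff] at h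
    obtain ⟨σ, hσ, h1⟩ := h
    rw [Finset.mem_filter] at hσ
    rw [eval_sub, eval_X, eval_C, sub_eq_zero] at h1
    have := hω π σ h1
    rw [this]
    exact hσ.2

/-! ### The descent -/

theorem exists_rho {E' Om' Om : Type} [Field E'] [Field Om'] [Field Om] [Algebra E' Om']
    [Algebra.IsAlgebraic E' Om'] [IsAlgClosed Om] (φ : E' →+* Om) :
    ∃ ρ : Om' →+* Om, ∀ a, ρ (algebraMap E' Om' a) = φ a := by
  letI := φ.toAlgebra
  refine ⟨((IsAlgClosed.lift : Om' →ₐ[E'] Om) : Om' →+* Om), fun a => ?_⟩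
  exact (IsAlgClosed.lift : Om' →ₐ[E'] Om).commutes a

theorem step {E' E Om' Om : Type} [Field E'] [CharZero E'] [Field E] [Field Om'] [Field Om]
    [Algebra E' Om'] [IsAlgClosure E' Om'] [Algebra E Om] [IsAlgClosure E Om] [CharZero E]
    (ι : E' →+* E) {e : ℕ} (f : Fin (e + 1) → E) (f' : Fin (e + 1) → E')
    (hι : ∀ i, ι (f' i) = f i) (hirr : Irreducible (pol f)) (x : Fin e → Om)
    (hx : Roots (algebraMap E Om) f x) (P : Polynomial E) (P' : Polynomial E')
    (hP : P'.map ι = P) (ω : Fin e → ℕ) (G : Subgroup (Equiv.Perm (Fin e)))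
    (h1 : aeval (∑ i, (ω i : Om) * x i) P = 0)
    (h2 : ∀ π : Equiv.Perm (Fin e), aeval (∑ i, (ω i : Om) * x (π i)) P = 0 → π ∈ G) :
    ∃ x' : Fin e → Om', Roots (algebraMap E' Om') f' x' ∧
      ∀ τ : Om' ≃ₐ[E'] Om', ∃ σ ∈ G, ∀ i, τ (x' i) = x' (σ i) := by
  haveI : IsAlgClosed Om := IsAlgClosure.isAlgClosed E
  haveI : IsAlgClosed Om' := IsAlgClosure.isAlgClosed E'
  haveI : Algebra.IsAlgebraic E' Om' := IsAlgClosure.isAlgebraic
  have hpol : (pol f').map ι = pol f := by
    unfold pol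
    rw [Polynomial.map_sum]
    apply Finset.sum_congr rfl
    intro i _
    rw [Polynomial.map_mul, map_C, Polynomial.map_pow, map_X, hι]
  have hsep : (pol f').Separable := by
    rw [← separable_map ι, hpol]
    exact hirr.separable
  have hlast : f' (Fin.last e) ≠ 0 := by
    intro h0
    apply hx.1
    rw [← hι, h0, map_zero]
  obtain ⟨y, hy⟩ := exists_roots (algebraMap E' Om') f' hlast hsep
  obtain ⟨ρ, hρ⟩ := exists_rho (Om' := Om') ((algebraMap E Om).comp ι)
  have hρ' : ρ.comp (algebraMap E' Om') = (algebraMap E Om).comp ι := RingHom.ext hρ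
  have hev : ∀ (q : Polynomial E') (z : Om'),
      ((q.map ι).map (algebraMap E Om)).eval (ρ z) = ρ ((q.map (algebraMap E' Om')).eval z) := by
    intro q z
    rw [Polynomial.map_map, ← hρ', ← Polynomial.map_map, eval_map, eval₂_hom]
  obtain ⟨π, hπ⟩ := exists_perm hx (fun i => ρ (y i)) (ρ.injective.comp hy.2.1) (by
    intro i
    show ((pol f).map (algebraMap E Om)).eval (ρ (y i)) = 0
    rw [← hpol, hev, (root_iff hy _).mpr ⟨i, rfl⟩, map_zero])
  have hx' : Roots (algebraMap E' Om') f' (fun i => y (π⁻¹ i)) := by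
    refine ⟨hy.1, hy.2.1.comp (Equiv.injective _), ?_⟩
    rw [hy.2.2]
    congr 1
    exact (Equiv.prod_comp (π⁻¹ : Equiv.Perm (Fin e)) (fun i => X - C (y i))).symm
  have hρx : ∀ i, ρ (y (π⁻¹ i)) = x i := by
    intro i
    have := hπ (π⁻¹ i)
    simpa using this
  refine ⟨fun i => y (π⁻¹ i), hx', fun τ => ?_⟩
  obtain ⟨σ, hσ⟩ := perm_of_aut hx' τ
  refine ⟨σ, ?_, hσ⟩
  apply h2
  have e1 : ρ (∑ i, (ω i : Om') * y (π⁻¹ i)) = ∑ i, (ω i : Om) * x i := by
    simp only [map_sum, map_mul, map_natCast, hρx]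
  have h3 : (P'.map (algebraMap E' Om')).eval (∑ i, (ω i : Om') * y (π⁻¹ i)) = 0 := by
    apply ρ.injective
    rw [← hev, e1, hP, map_zero, eval_map_algebraMap]
    exact h1
  have h4 : (P'.map (algebraMap E' Om')).eval (τ (∑ i, (ω i : Om') * y (π⁻¹ i))) = 0 := by
    have h5 : (P'.map (algebraMap E' Om')).eval (τ (∑ i, (ω i : Om') * y (π⁻¹ i))) =
        τ ((P'.map (algebraMap E' Om')).eval (∑ i, (ω i : Om') * y (π⁻¹ i))) := by
      rw [eval_map_algebraMap, eval_map_algebraMap]
      exact aeval_algHom_apply (τ : Om' →ₐ[E'] Om') _ P'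
    rw [h5, h3, map_zero]
  have e2 : ρ (τ (∑ i, (ω i : Om') * y (π⁻¹ i))) = ∑ i, (ω i : Om) * x (σ i) := by
    have : τ (∑ i, (ω i : Om') * y (π⁻¹ i)) = ∑ i, (ω i : Om') * y (π⁻¹ (σ i)) := by
      simp only [map_sum, map_mul, map_natCast]
      apply Finset.sum_congr rfl
      intro i _
      rw [hσ i]
    rw [this]
    simp only [map_sum, map_mul, map_natCast, hρx]
  rw [← eval_map_algebraMap, ← e2, ← hP, hev, h4, map_zero]

theorem main (hCO : S_CO) : S_CEX := by
  intro L _ _ k e h he hlast hirr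
  let f : Fin (e + 1) → Fr k (AlgebraicClosure L) := fun i =>
    algebraMap (MvPolynomial (Fin k) (AlgebraicClosure L)) (Fr k (AlgebraicClosure L))
      (MvPolynomial.map (toA L) (h i))
  have htoA : Function.Injective (toA L) := by
    unfold toA
    exact (algebraMap L (AlgebraicClosure L)).injective.comp
      (RingOfIntegers.coe_injective)
  have hf : f (Fin.last e) ≠ 0 := by
    intro h0
    apply hlast
    have h1 := (IsFractionRing.injective (MvPolynomial (Fin k) (AlgebraicClosure L))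
      (Fr k (AlgebraicClosure L))) (h0.trans (map_zero _).symm)
    exact MvPolynomial.map_injective _ htoA (h1.trans (map_zero _).symm)
  haveI : CharZero (MvPolynomial (Fin k) (AlgebraicClosure L)) := inferInstance
  haveI hcz : CharZero (Fr k (AlgebraicClosure L)) :=
    charZero_of_injective_algebraMap (IsFractionRing.injective
      (MvPolynomial (Fin k) (AlgebraicClosure L)) (Fr k (AlgebraicClosure L)))
  obtain ⟨x, P, ω, hx, htr, h1, h2⟩ := core (Om := AlgebraicClosure (Fr k (AlgebraicClosure L)))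
    f hf hirr
  obtain ⟨L', _, _, _, j, ι, hι, hr⟩ := hCO L k (P.natDegree + 1) (fun i => P.coeff (i : ℕ))
  have hPl : P ∈ lifts ι := by
    rw [lifts_iff_coeff_lifts]
    intro n
    by_cases hn : n < P.natDegree + 1
    · exact hr ⟨n, hn⟩
    · rw [coeff_eq_zero_of_natDegree_lt (by omega)]
      exact ⟨0, map_zero _⟩
  obtain ⟨P', hP'⟩ := (mem_lifts _).mp hPl
  haveI : CharZero (𝓞 L') := inferInstance
  haveI : CharZero (MvPolynomial (Fin k) (𝓞 L')) := inferInstance
  haveI hcz' : CharZero (Fr k (𝓞 L')) :=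
    charZero_of_injective_algebraMap (IsFractionRing.injective
      (MvPolynomial (Fin k) (𝓞 L')) (Fr k (𝓞 L')))
  let f' : Fin (e + 1) → Fr k (𝓞 L') := fun i =>
    algebraMap (MvPolynomial (Fin k) (𝓞 L')) (Fr k (𝓞 L'))
      (MvPolynomial.map (algebraMap (𝓞 L) (𝓞 L')) (h i))
  have hff : ∀ i, ι (f' i) = f i := by
    intro i
    show ι (algebraMap _ _ _) = _
    rw [hι, MvPolynomial.map_map]
    have hc : ((j : L' →+* AlgebraicClosure L).comp (algebraMap (𝓞 L') L')).comp
        (algebraMap (𝓞 L) (𝓞 L')) = toA L := by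
      ext a
      show j (algebraMap (𝓞 L') L' (algebraMap (𝓞 L) (𝓞 L') a)) =
        algebraMap L (AlgebraicClosure L) (algebraMap (𝓞 L) L a)
      rw [← j.commutes]
      congr 1
    rw [hc]
  obtain ⟨x', hx', h3⟩ := step (Om' := AlgebraicClosure (Fr k (𝓞 L'))) ι f f' hff hirr x hx P P' hP' ω
    (grp (E := Fr k (AlgebraicClosure L)) x) h1 h2
  exact ⟨L', inferInstance, inferInstance, inferInstance, j,
    grp (E := Fr k (AlgebraicClosure L)) x, htr, ⟨x', hx', h3⟩, x, hx, fun σ hσ => hσ⟩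

end Pool.Agent.N687.HB.CEX
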